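import Pool.Agent.H312R210.Final

/-!
Full answer to Q1 of MP_c6a9e6_pr: for every `0 < p < 1` the relaxation time of p-asynchronous
rule 210 on the ring `ℤ/nℤ` is at most `C n`, for every `n ≥ 3`.  The definitions (local rule,
step, fixed points, trajectory, absorption time, law of the coins, expected absorption time and
relaxation time) are in `Pool.Agent.H312R210.Defs`.
-/

namespace Pool.Agent.Results.MP_c6a9e6_pr.LinearRelaxation

open Pool.Agent.H312R210
open scoped ENNReal NNReal

/-- For every `p` with `0 < p < 1` there is a constant `C` such that the relaxation time (the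
maximum over all initial configurations of the expectation of the first time at which the
configuration is a fixed point) satisfies `R_p(n) ≤ C n` for all `n ≥ 3`. -/
theorem result : ∀ (p : ℝ≥0) (hp : p ≤ 1), 0 < p → p < 1 →
    ∃ C : ℝ≥0, ∀ (n : ℕ) [NeZero n], 3 ≤ n →
      relaxationTime n p hp ≤ (C : ℝ≥0∞) * (n : ℝ≥0∞) :=
  fun p hp h0 h1 => main p hp h0 h1

end Pool.Agent.Results.MP_c6a9e6_pr.LinearRelaxation
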